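import Pool.Agent.Helper42.DB.Goals2

set_option autoImplicit false

/-!
# Packet FAMPAIR of MP_48f005_an
-/

namespace Pool.Agent.Helper42.DB.PkFAMPAIR

open Set Filter Topology

variable {S : Sys}

lemma det {n : ℕ} {z z' : ℕ → St S} (hF : G_FLB S) (hz : Tr n z) (hz' : Tr n z')
    (h0 : z 0 = z' 0) : ∀ k ≤ n, z k = z' k := by
  intro k
  induction k with
  | zero => intro _; exact h0
  | succ k ih =>
    intro hk
    have h1 := ih (by omega)
    have h2 := hz.2 k (by omega)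
    have h3 := hz'.2 k (by omega)
    rw [← h1] at h3
    exact hF.2.2 _ _ _ h2 h3

/-- Extension of a finite word. -/
def ext {α : Type} (n : ℕ) (f : Fin (n + 1) → α) : ℕ → α :=
  fun k => f ⟨min k n, by omega⟩

lemma ext_apply {α : Type} (n : ℕ) (f : Fin (n + 1) → α) (k : ℕ) (hk : k ≤ n) :
    ext n f k = f ⟨k, by omega⟩ := by
  unfold ext
  congr 1
  ext
  simp [hk]

lemma res_ext {α : Type} (n : ℕ) (f : Fin (n + 1) → α) : res n (ext n f) = f := by
  funext j
  unfold res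
  rw [ext_apply n f j (by omega)]

lemma ext_res {α : Type} (n : ℕ) (w : ℕ → α) (k : ℕ) (hk : k ≤ n) : ext n (res n w) k = w k := by
  rw [ext_apply n _ k hk]
  rfl

theorem thm (S : Sys) : G_FLB S → G_PAIRS → G_FAMPAIR S := by
  intro hF hP a x Λ hI hJ
  classical
  set Fs : Set (Fin (a + 1 + 1) → S.ι) := res (a + 1) '' {w | PW S (a + 1) w} with hFs
  set Bs : Set (Fin (a + 1) → S.ι) := res a '' {w | PW S a w} with hBs
  have : Fintype Fs := Fintype.ofFinite _
  have : Fintype Bs := Fintype.ofFinite _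
  let I : Fs → Set ℝ := fun f =>
    {l : ℝ | l ∈ Λ ∧ ∃ z : ℕ → St S, Cyl (a + 1) (ext (a + 1) f.1) z ∧ z 0 = x l}
  let J : Bs → Set ℝ := fun b =>
    {l : ℝ | l ∈ Λ ∧ ∃ z : ℕ → St S, Cyl a (ext a b.1) z ∧ z 0 = (x l).rev}
  have hdI : ∀ f f', f ≠ f' → Disjoint (I f) (I f') := by
    intro f f' hne
    rw [Set.disjoint_left]
    rintro l ⟨_, z, hz, hz0⟩ ⟨_, z', hz', hz0'⟩
    apply hne
    apply Subtype.ext
    funext j
    have h1 := det hF hz.1 hz'.1 (hz0.trans hz0'.symm) j (by omega)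
    have h2 := hz.2 j (by omega)
    have h3 := hz'.2 j (by omega)
    rw [ext_apply _ _ _ (by omega)] at h2 h3
    rw [← h2, ← h3, h1]
  have hdJ : ∀ b b', b ≠ b' → Disjoint (J b) (J b') := by
    intro f f' hne
    rw [Set.disjoint_left]
    rintro l ⟨_, z, hz, hz0⟩ ⟨_, z', hz', hz0'⟩
    apply hne
    apply Subtype.ext
    funext j
    have h1 := det hF hz.1 hz'.1 (hz0.trans hz0'.symm) j (by omega)
    have h2 := hz.2 j (by omega)
    have h3 := hz'.2 j (by omega)
    rw [ext_apply _ _ _ (by omega)] at h2 h3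
    rw [← h2, ← h3, h1]
  have key := hP Fs Bs I J (fun f => hI _) (fun b => hJ _) hdI hdJ
  have hcF : Fintype.card Fs = AW S (a + 1) := by
    rw [← Nat.card_eq_fintype_card]; rfl
  have hcB : Fintype.card Bs = AW S a := by
    rw [← Nat.card_eq_fintype_card]; rfl
  rw [hcF, hcB] at key
  refine le_trans ?_ key
  -- the image of the set of pairs
  let v : Fs × Bs → (Fin (a + 1 + 1) → S.ι) × (Fin (a + 1) → S.ι) := fun y => (y.1.1, y.2.1)
  have hv : Function.Injective v := by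
    rintro ⟨⟨p, hp⟩, ⟨q, hq⟩⟩ ⟨⟨p', hp'⟩, ⟨q', hq'⟩⟩ h
    simp only [v, Prod.mk.injEq] at h
    obtain ⟨h1, h2⟩ := h
    subst h1; subst h2; rfl
  rw [← Set.ncard_image_of_injective _ hv]
  let Φ : (Fin (2 * a + 1 + 1) → S.ι) → (Fin (a + 1 + 1) → S.ι) × (Fin (a + 1) → S.ι) :=
    fun g => (res (a + 1) (sh a (ext (2 * a + 1) g)), res a (fun k => ext (2 * a + 1) g (a - k)))
  refine Set.ncard_le_ncard_of_injOn Φ ?_ ?_ (Set.toFinite _)
  · rintro g ⟨w, ⟨l, hl, z, hz, hzx⟩, rfl⟩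
    have hw : ∀ k ≤ 2 * a + 1, ext (2 * a + 1) (res (2 * a + 1) w) k = w k :=
      fun k hk => ext_res _ _ _ hk
    have e1 : res (a + 1) (sh a (ext (2 * a + 1) (res (2 * a + 1) w))) = res (a + 1) (sh a w) := by
      funext j
      show ext (2 * a + 1) (res (2 * a + 1) w) (a + j) = w (a + j)
      exact hw _ (by omega)
    have e2 : res a (fun k => ext (2 * a + 1) (res (2 * a + 1) w) (a - k)) =
        res a (fun k => w (a - k)) := by
      funext j
      show ext (2 * a + 1) (res (2 * a + 1) w) (a - j) = w (a - j)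
      exact hw _ (by omega)
    have c1 : Cyl (a + 1) (sh a w) (fun k => z (a + k)) := hz.shift (by omega)
    have c2 : Cyl a (fun k => w (a - k)) (fun k => (z (a - k)).rev) := (hz.mono (by omega)).rev
    have m1 : res (a + 1) (sh a w) ∈ Fs := ⟨_, ⟨_, c1⟩, rfl⟩
    have m2 : res a (fun k => w (a - k)) ∈ Bs := ⟨_, ⟨_, c2⟩, rfl⟩
    refine ⟨(⟨_, m1⟩, ⟨_, m2⟩), ?_, ?_⟩
    · refine ⟨l, ⟨hl, fun k => z (a + k), ?_, ?_⟩, ⟨hl, fun k => (z (a - k)).rev, ?_, ?_⟩⟩
      · exact c1.congr (fun k hk => (ext_res _ _ _ hk).symm)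
      · simpa using hzx
      · exact c2.congr (fun k hk => (ext_res a (fun k => w (a - k)) k hk).symm)
      · show (z (a - 0)).rev = _
        rw [Nat.sub_zero, hzx]
    · show (_, _) = (_, _)
      rw [e1, e2]
  · intro g _ g' _ h
    simp only [Φ, Prod.mk.injEq] at h
    obtain ⟨h1, h2⟩ := h
    funext j
    rcases le_or_gt a j.1 with hj | hj
    · have h3 := congrFun h1 ⟨j.1 - a, by omega⟩
      simp only [res, sh] at h3
      have h4 : a + (j.1 - a) = j.1 := by omega
      rw [h4, ext_apply _ _ _ (by omega), ext_apply _ _ _ (by omega)] at h3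
      exact h3
    · have h3 := congrFun h2 ⟨a - j.1, by omega⟩
      simp only [res] at h3
      have h4 : a - (a - j.1) = j.1 := by omega
      rw [h4, ext_apply _ _ _ (by omega), ext_apply _ _ _ (by omega)] at h3
      exact h3

end Pool.Agent.Helper42.DB.PkFAMPAIR
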